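import Pool.Agent.P8H10.ET.StmA
import Pool.Agent.H297R2.BakerThm

/-!
# Project ET, package GS

`2 π i N τ` is not a logarithm of an algebraic number.
-/

set_option autoImplicit false

namespace Pool.Agent.P8H61.ET

/-- the statement of the package GS, unfolded -/
theorem gs_core (τ : ℂ) (hτ : IsAlgebraic ℚ τ) (him : τ.im ≠ 0) (l : ℂ)
    (hl : IsAlgebraic ℚ (Complex.exp l)) (N : ℤ)
    (h : l = 2 * Real.pi * Complex.I * N * τ) : N = 0 := by
  by_contra hN
  have hpi : (2 * Real.pi * Complex.I : ℂ) ≠ 0 := by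
    simp [Real.pi_ne_zero]
  have hNR : (N : ℝ) ≠ 0 := by exact_mod_cast hN
  have hli : LinearIndependent ℚ ![l, (2 * Real.pi * Complex.I : ℂ)] := by
    rw [LinearIndependent.pair_iff]
    intro s t hst
    have h1 : (2 * Real.pi * Complex.I : ℂ) * ((s : ℂ) * N * τ + t) = 0 := by
      rw [← hst, h, Rat.smul_def, Rat.smul_def]
      ring
    have h2 : (s : ℂ) * N * τ + t = 0 := (mul_eq_zero.1 h1).resolve_left hpi
    have h3 : (s : ℝ) * N * τ.im = 0 := by
      have := congrArg Complex.im h2
      have e1 : ((s : ℂ) * N * τ + t).im = (s : ℝ) * N * τ.im := by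
        have e2 : ((s : ℂ) * N * τ + t) = (((s : ℝ) * (N : ℝ) : ℝ) : ℂ) * τ + ((t : ℝ) : ℂ) := by
          push_cast
          ring
        rw [e2, Complex.add_im, Complex.ofReal_im, add_zero, Complex.im_ofReal_mul]
      rw [e1] at this
      simpa using this
    have hs : s = 0 := by
      rcases mul_eq_zero.1 h3 with h4 | h4
      · rcases mul_eq_zero.1 h4 with h5 | h5
        · exact_mod_cast h5
        · exact absurd h5 hNR
      · exact absurd h4 him
    rw [hs] at h2
    refine ⟨hs, ?_⟩
    have h4 : (t : ℂ) = 0 := by simpa using h2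
    exact_mod_cast h4
  have halg : ∀ i, IsAlgebraic ℚ (Complex.exp (![l, (2 * Real.pi * Complex.I : ℂ)] i)) := by
    intro i
    fin_cases i
    · exact hl
    · change IsAlgebraic ℚ (Complex.exp (2 * Real.pi * Complex.I))
      rw [Complex.exp_two_pi_mul_I]
      exact isAlgebraic_one
  have hb := Pool.Agent.H297R2.baker ![l, (2 * Real.pi * Complex.I : ℂ)] halg hli
    ![1, -((N : ℂ) * τ)] (by
      intro i
      fin_cases i
      · exact isAlgebraic_one
      · exact ((isAlgebraic_intCast N).mul hτ).neg) (by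
      rw [Fin.sum_univ_two]
      simp only [Matrix.cons_val_zero, Matrix.cons_val_one]
      rw [h]
      ring) 0
  simp at hb

/-- Package GS. -/
theorem gs : Pool.Agent.P8H10.ET.S_GS := fun τ hτ him l hl N h => gs_core τ hτ him l hl N h

end Pool.Agent.P8H61.ET
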