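import Pool.Agent.P8H10.ET.StmA
import Pool.Agent.R347.LW.GRoot

/-!
# Project ET, package ROOT

Zeros of polynomials whose coefficients are algebraic numbers of bounded size (adaptation of
`Pool.Agent.R347.LW.root_tow`).
-/

set_option autoImplicit false

namespace Pool.Agent.P8H61.ET

open Polynomial Complex Pool.Agent.R347.LW
open scoped Nat NNReal

/-- Package ROOT. -/
theorem root : Pool.Agent.P8H10.ET.S_ROOT := by
  classical
  let Ω : Type := {Y : ℕ // 2 ≤ Y}
  let Yf : Ω → ℕ := fun ω => ω.1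
  have pY : EL Yf (fun ω => (Yf ω : ℝ)) := EL.base
  have p1 : EL Yf (fun _ => (1 : ℝ)) := EL.const 1 (by norm_num)
  have p2 : EL Yf (fun _ => (2 : ℝ)) := EL.const 2 (by norm_num)
  let fe : Ω → ℕ := fun ω => (Yf ω + 1) * Yf ω + 1
  let fG : Ω → ℕ := fun ω => fe ω ^ fe ω
  let fD : Ω → ℕ := fun ω => Yf ω ^ (Yf ω + 1)
  let fN : Ω → ℕ := fun ω =>
    Yf ω * fG ω + 2 ^ (Yf ω * fG ω) * ((Yf ω + 1) * (fD ω * (Yf ω + 1))) ^ fG ω
  have pY1 : EL Yf (fun ω => ((Yf ω + 1 : ℕ) : ℝ)) :=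
    (pY.add p1).of_le (fun ω => by positivity) (fun ω => by push_cast; rfl)
  have pe : EL Yf (fun ω => ((fe ω : ℕ) : ℝ)) :=
    ((pY1.mul pY).add p1).of_le (fun ω => by positivity)
      (fun ω => by simp only [fe]; push_cast; rfl)
  have pG : EL Yf (fun ω => ((fG ω : ℕ) : ℝ)) :=
    (pe.npow _ pe).of_le (fun ω => by positivity) (fun ω => by simp only [fG]; push_cast; rfl)
  have pD : EL Yf (fun ω => ((fD ω : ℕ) : ℝ)) :=
    (pY.npow _ pY1).of_le (fun ω => by positivity) (fun ω => by simp only [fD]; push_cast; rfl)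
  have pYG : EL Yf (fun ω => ((Yf ω * fG ω : ℕ) : ℝ)) :=
    (pY.mul pG).of_le (fun ω => by positivity) (fun ω => by push_cast; rfl)
  have pN : EL Yf (fun ω => ((fN ω : ℕ) : ℝ)) :=
    (pYG.add ((p2.npow _ pYG).mul ((pY1.mul (pD.mul pY1)).npow _ pG))).of_le
      (fun ω => by positivity) (fun ω => by simp only [fN]; push_cast; rfl)
  obtain ⟨h', hh'⟩ := pN
  refine ⟨h', fun Y hY n c ρ hnY hcR hc0 hsum => ?_⟩
  set ω : Ω := ⟨Y, hY⟩ with hω
  have hMle : fN ω ≤ tow h' Y := by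
    have h0 := (hh' ω).2
    change ((fN ω : ℕ) : ℝ) ≤ ((tow h' Y : ℕ) : ℝ) at h0
    exact_mod_cast h0
  have hYf : Yf ω = Y := rfl
  -- the largest index
  obtain ⟨m, hmn, hm0, hmax⟩ : ∃ m ≤ n, c m ≠ 0 ∧ ∀ j ≤ n, m < j → c j = 0 := by
    obtain ⟨j₀, hj₀, hcj₀⟩ := hc0
    obtain ⟨m, hm, hmax⟩ := ((Finset.range (n + 1)).filter (fun j => c j ≠ 0)).exists_max_image id
      ⟨j₀, Finset.mem_filter.2 ⟨Finset.mem_range.2 (by omega), hcj₀⟩⟩
    rw [Finset.mem_filter, Finset.mem_range] at hm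
    refine ⟨m, by omega, hm.2, fun j hj hmj => ?_⟩
    by_contra hcj
    have := hmax j (Finset.mem_filter.2 ⟨Finset.mem_range.2 (by omega), hcj⟩)
    simp only [id] at this
    omega
  have hmY : m ≤ Y := hmn.trans hnY
  have hsumm : ∑ j ∈ Finset.range (m + 1), c j * ρ ^ j = 0 := by
    rw [← hsum]
    refine Finset.sum_subset (Finset.range_subset_range.2 (by omega)) ?_
    intro j hj hj'
    rw [Finset.mem_range] at hj hj'
    rw [hmax j (by omega) (by omega), zero_mul]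
  -- the field
  obtain ⟨L, hL1, hL2, hL4, A, D, hA, hD1, hDN, hAI, hAR⟩ :=
    common_field Y Y (fun j : Fin (m + 1) => c j) (fun j => hcR j (by have := j.2; omega))
  rw [Fintype.card_fin] at hL4 hDN
  set g : ℕ := Fintype.card (L ≃ₐ[ℚ] L) with hg
  set b : ℕ → L := fun i => if h : i < m + 1 then A ⟨i, h⟩ else 0 with hb
  have hbc : ∀ i, ∀ h : i < m + 1, b i = A ⟨i, h⟩ := fun i h => by
    rw [hb]
    simp only
    rw [dif_pos h]
  have hbm : b m ≠ 0 := by
    rw [hbc m (by omega)]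
    intro h0
    have := hA ⟨m, by omega⟩
    rw [h0] at this
    exact hm0 (by rw [← this]; simp)
  have hsum' : ∑ i ∈ Finset.range (m + 1), ((b i : L) : ℂ) * ρ ^ i = 0 := by
    rw [← hsumm]
    refine Finset.sum_congr rfl fun i hi => ?_
    rw [hbc i (Finset.mem_range.1 hi), hA]
  have heE : (m + 1) * Y + 1 ≤ fe ω := by
    change (m + 1) * Y + 1 ≤ (Y + 1) * Y + 1
    have := Nat.mul_le_mul_right Y (show m + 1 ≤ Y + 1 by omega)
    omega
  have hgG : g ≤ fG ω := by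
    refine hL4.trans ?_
    refine (Nat.pow_le_pow_left heE _).trans ?_
    exact Nat.pow_le_pow_right (by omega) heE
  have hDD : D ≤ fD ω := by
    refine hDN.trans ?_
    exact Nat.pow_le_pow_right (by omega) (Nat.succ_le_succ hmY)
  have hN1 : 2 ^ (m * g) * ((m + 1) * (D * (Y + 1))) ^ g ≤ fN ω := by
    refine le_trans ?_ (Nat.le_add_left _ _)
    refine Nat.mul_le_mul ?_ ?_
    · exact Nat.pow_le_pow_right (by norm_num) (Nat.mul_le_mul hmY hgG)
    · refine le_trans (Nat.pow_le_pow_left (Nat.mul_le_mul (Nat.succ_le_succ hmY)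
        (Nat.mul_le_mul_right _ hDD)) g) ?_
      refine Nat.pow_le_pow_right ?_ hgG
      have : 0 < fD ω := Nat.pow_pos (by omega)
      positivity
  have hmain := poly_prod L m b D hD1 ((Y : ℝ) + 1) hbm ?_ ?_ ρ hsum' (fN ω) ?_
  · refine hmain.mono ?_ hMle
    refine le_trans ?_ hMle
    exact (Nat.mul_le_mul hmY hgG).trans (Nat.le_add_right _ _)
  · intro i hi
    rw [hbc i (by omega)]
    exact hAI _
  · intro i hi σ
    rw [hbc i (by omega)]
    exact hAR _ σ
  · have h1 : ((2 ^ (m * g) * ((m + 1) * (D * (Y + 1))) ^ g : ℕ) : ℝ) ≤ fN ω := by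
      exact_mod_cast hN1
    push_cast at h1
    exact h1

end Pool.Agent.P8H61.ET
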